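import Mathlib
import Pool.Agent.T6.H90.Room.Emb

/-!
# A Room square with a complement which is not isomorphic to an embedded Room square

Question 1 (a) of `MP_b53726_co`: is there a Room square that has a complement but is not isomorphic
to any embedded Room square? The answer is yes, already for side 9.

The example is the Room square which is developed over the integers modulo 9 from the starter
`{1, 2}, {3, 7}, {4, 6}, {5, 8}` with the adder `1, 7, 2, 8`: it has a complement if it is
standardized with one of the nine symbols of the cyclic group (not with the symbol at infinity). By
the cyclic symmetry only two standardizations have to be considered for embeddings (the symbol at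
infinity and one other symbol). For each of them a search tree (about 137000 nodes) for the two
orthogonal Latin squares is verified by the kernel, with a proved search machine.
-/

set_option autoImplicit false

namespace Pool.Agent.Results.MP_b53726_co.ComplementNotEmbedded

open Pool.Agent.T6.H3.Room

theorem result :
    ∃ A : Arr 9, IsRoom A ∧ HasComplement A ∧ ∀ E : Arr 9, Embedded E → ¬ Iso A E :=
  ⟨Pool.Agent.T6.H90.Room.sqR, Pool.Agent.T6.H90.Room.room_R,
    Pool.Agent.T6.H90.Room.complement_R, Pool.Agent.T6.H90.Room.not_iso_embedded⟩

end Pool.Agent.Results.MP_b53726_co.ComplementNotEmbedded
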